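import Pool.Agent.Q173.KS.Stm

set_option autoImplicit false

/-!
Project KS of helper173, job HALF.
-/

namespace Pool.Agent.Q164.KS2

open Pool.Agent.Q173.KS Finset

section
variable {I : Type} [Fintype I] [DecidableEq I]

/-- the two values at the two points of a new pair nearly cancel -/
theorem two (k : ℕ) (D : Finset (Bool × I) → ℝ) (δ : ℝ)
    (h1 : InvOn k (Lf I) D) (h2 : InvOn k (Rt I) D) (hrel : Rel k D)
    (hb : ∀ S, S.card ≤ k → |D S| ≤ δ) (T : Finset (Bool × I)) (hT : T.card < k) (i0 : I)
    (hi : ∀ b, (b, i0) ∉ T) :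
    (Fintype.card I : ℝ) * |D (insert (false, i0) T) + D (insert (true, i0) T)| ≤ 2 * (k * δ) := by
  have hδ : 0 ≤ δ := (abs_nonneg _).trans (hb ∅ (by simp))
  let c : Bool × I → ℝ := fun x => D (insert (x.1, i0) T)
  have hc : ∀ x, x ∉ T → D (insert x T) = c x := by
    rintro ⟨b, i⟩ hx
    have hcard : (insert (b, i) T).card ≤ k := by
      rw [Finset.card_insert_of_notMem hx]; omega
    cases b with
    | false =>
      have m1 : ((false, i) : Bool × I) ∈ Lf I := by simp [Lf]
      have m2 : ((false, i0) : Bool × I) ∈ Lf I := by simp [Lf]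
      refine h1 _ _ hcard ?_ ?_
      · rw [Finset.insert_sdiff_of_mem _ m1, Finset.insert_sdiff_of_mem _ m2]
      · rw [Finset.insert_inter_of_mem m1, Finset.insert_inter_of_mem m2,
          Finset.card_insert_of_notMem, Finset.card_insert_of_notMem]
        · intro h; exact hi _ (Finset.mem_inter.1 h).1
        · intro h; exact hx (Finset.mem_inter.1 h).1
    | true =>
      have m1 : ((true, i) : Bool × I) ∈ Rt I := by simp [Rt]
      have m2 : ((true, i0) : Bool × I) ∈ Rt I := by simp [Rt]
      refine h2 _ _ hcard ?_ ?_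
      · rw [Finset.insert_sdiff_of_mem _ m1, Finset.insert_sdiff_of_mem _ m2]
      · rw [Finset.insert_inter_of_mem m1, Finset.insert_inter_of_mem m2,
          Finset.card_insert_of_notMem, Finset.card_insert_of_notMem]
        · intro h; exact hi _ (Finset.mem_inter.1 h).1
        · intro h; exact hx (Finset.mem_inter.1 h).1
  have hr := hrel T hT
  have e1 : ∑ x ∈ Tᶜ, D (insert x T) = ∑ x ∈ Tᶜ, c x :=
    Finset.sum_congr rfl fun x hx => hc x (Finset.mem_compl.1 hx)
  have e2 : ∑ x ∈ Tᶜ, c x + ∑ x ∈ T, c x = ∑ x, c x := Finset.sum_compl_add_sum T c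
  have e3 : ∑ x, c x = (Fintype.card I : ℝ) * (D (insert (false, i0) T) +
      D (insert (true, i0) T)) := by
    rw [Fintype.sum_prod_type]
    simp only [c, Fintype.sum_bool, Finset.sum_const, Finset.card_univ, nsmul_eq_mul]
    ring
  have e4 : (Fintype.card I : ℝ) * (D (insert (false, i0) T) + D (insert (true, i0) T)) =
      ∑ x ∈ T, c x - ∑ x ∈ T, D (T.erase x) := by
    rw [e1] at hr
    linarith
  have hTk : (T.card : ℝ) ≤ k := by exact_mod_cast hT.le
  have b1 : |∑ x ∈ T, c x| ≤ k * δ := by
    refine (Finset.abs_sum_le_sum_abs _ _).trans ?_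
    refine (Finset.sum_le_card_nsmul T _ δ fun x _ => ?_).trans ?_
    · refine hb _ ?_
      rw [Finset.card_insert_of_notMem (hi _)]
      omega
    · rw [nsmul_eq_mul]
      exact mul_le_mul_of_nonneg_right hTk hδ
  have b2 : |∑ x ∈ T, D (T.erase x)| ≤ k * δ := by
    refine (Finset.abs_sum_le_sum_abs _ _).trans ?_
    refine (Finset.sum_le_card_nsmul T _ δ fun x _ => ?_).trans ?_
    · refine hb _ ?_
      have := Finset.card_le_card (Finset.erase_subset x T)
      omega
    · rw [nsmul_eq_mul]
      exact mul_le_mul_of_nonneg_right hTk hδ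
  have e5 : (Fintype.card I : ℝ) * |D (insert (false, i0) T) + D (insert (true, i0) T)| =
      |(Fintype.card I : ℝ) * (D (insert (false, i0) T) + D (insert (true, i0) T))| := by
    rw [abs_mul, Nat.abs_cast]
  rw [e5, e4]
  have := abs_sub (∑ x ∈ T, c x) (∑ x ∈ T, D (T.erase x))
  linarith

theorem swD_apply (E : Finset I) (x : Bool × I) :
    swD E x = if x.2 ∈ E then (!x.1, x.2) else x := rfl

theorem swD_snd (E : Finset I) (x : Bool × I) : (swD E x).2 = x.2 := by
  rw [swD_apply]; split_ifs <;> rfl

end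

theorem half (hPAIRS : S_PAIRS) : S_HALF := by
  intro I _ _ k _ D δ h1 h2 hrel hb S hS hne hdis
  obtain ⟨⟨b0, i0⟩, hx0⟩ := hne
  have hN : 0 < Fintype.card I := Fintype.card_pos_iff.2 ⟨i0⟩
  have hN' : (0 : ℝ) < Fintype.card I := by exact_mod_cast hN
  have hδ : 0 ≤ δ := (abs_nonneg _).trans (hb ∅ (by simp))
  have huniq : ∀ x ∈ S.erase (b0, i0), x.2 ≠ i0 := by
    rintro ⟨b, i⟩ hx hi
    rw [Finset.mem_erase] at hx
    obtain ⟨hx1, hx2⟩ := hx
    simp only at hi
    subst hi
    have hbb : b ≠ b0 := fun h => hx1 (by rw [h])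
    rw [Finset.disjoint_left] at hdis
    have m : ∀ c : Bool, (c, i) ∈ S := by
      intro c
      rcases Bool.eq_or_eq_not c b0 with h | h
      · rw [h]; exact hx0
      · have : b = !b0 := by cases b <;> cases b0 <;> simp_all
        rw [h, ← this]; exact hx2
    exact hdis (a := i) (by simp [pL, m]) (by simp [pR, m])
  let T : Finset I → Finset (Bool × I) := fun E => (S.erase (b0, i0)).map (swD E).toEmbedding
  have hT : ∀ E, S.map (swD E).toEmbedding = insert (swD E (b0, i0)) (T E) := by
    intro E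
    conv_lhs => rw [← Finset.insert_erase hx0, Finset.map_insert]
    rfl
  have hTc : ∀ E, (T E).card < k := by
    intro E
    simp only [T, Finset.card_map]
    have := Finset.card_erase_add_one hx0
    omega
  have hTi : ∀ E b, (b, i0) ∉ T E := by
    intro E b hm
    simp only [T, Finset.mem_map] at hm
    obtain ⟨x, hx, hx'⟩ := hm
    have h3 : swD E x = (b, i0) := hx'
    have h4 := swD_snd E x
    rw [h3] at h4
    exact huniq x hx h4.symm
  have hTs : ∀ E, T (symmDiff E {i0}) = T E := by
    intro E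
    simp only [T, Finset.map_eq_image]
    apply Finset.image_congr
    intro x hx
    have hx' := huniq x hx
    change swD (symmDiff E {i0}) x = swD E x
    rw [swD_apply, swD_apply]
    have : x.2 ∈ symmDiff E {i0} ↔ x.2 ∈ E := by
      rw [Finset.mem_symmDiff]
      simp [hx']
    simp only [this]
  let f : Finset I → ℝ := fun E => D (S.map (swD E).toEmbedding)
  have hf : ∀ E, f E + f (symmDiff E {i0}) =
      D (insert (false, i0) (T E)) + D (insert (true, i0) (T E)) := by
    intro E
    simp only [f]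
    rw [hT, hT, hTs, swD_apply, swD_apply]
    by_cases hE : i0 ∈ E
    · have hE' : i0 ∉ symmDiff E {i0} := by
        rw [Finset.mem_symmDiff]; simp [hE]
      simp only [hE, hE', if_true, if_false]
      cases b0 <;> simp only [Bool.not_false, Bool.not_true] <;> ring
    · have hE' : i0 ∈ symmDiff E {i0} := by
        rw [Finset.mem_symmDiff]; simp [hE]
      simp only [hE, hE', if_true, if_false]
      cases b0 <;> simp only [Bool.not_false, Bool.not_true] <;> ring
  have hfb : ∀ E, |f E + f (symmDiff E {i0})| ≤ 2 * (k * δ / Fintype.card I) := by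
    intro E
    rw [hf]
    have := two k D δ h1 h2 hrel hb (T E) (hTc E) i0 (hTi E)
    rw [show 2 * ((k : ℝ) * δ / Fintype.card I) = (2 * (k * δ)) / Fintype.card I by ring,
      le_div_iff₀ hN', mul_comm]
    exact this
  have hsum : ∑ E : Finset I, f (symmDiff E {i0}) = ∑ E, f E := by
    refine Fintype.sum_equiv ⟨fun E => symmDiff E {i0}, fun E => symmDiff E {i0}, ?_, ?_⟩ _ _ ?_
    · intro E; simp
    · intro E; simp
    · intro E; rfl
  have hw : ∀ E : Finset I, (∏ _i ∈ E, (1 / 2 : ℝ)) * (∏ _i ∈ Eᶜ, (1 - 1 / 2 : ℝ)) =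
      (1 / 2) ^ Fintype.card I := by
    intro E
    rw [Finset.prod_const, Finset.prod_const, show (1 - 1 / 2 : ℝ) = 1 / 2 by norm_num, ← pow_add,
      Finset.card_add_card_compl]
  unfold ES
  rw [hPAIRS]
  simp only [hw]
  rw [← Finset.mul_sum, abs_mul, abs_of_nonneg (by positivity)]
  have h5 : |∑ E : Finset I, f E| ≤ 2 ^ Fintype.card I * (k * δ / Fintype.card I) := by
    have e : 2 * ∑ E : Finset I, f E = ∑ E : Finset I, (f E + f (symmDiff E {i0})) := by
      rw [Finset.sum_add_distrib, hsum]; ring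
    have e2 : |2 * ∑ E : Finset I, f E| ≤
        2 ^ Fintype.card I * (2 * (k * δ / Fintype.card I)) := by
      rw [e]
      refine (Finset.abs_sum_le_sum_abs _ _).trans ?_
      refine (Finset.sum_le_card_nsmul _ _ _ fun E _ => hfb E).trans ?_
      rw [nsmul_eq_mul, Finset.card_univ, Fintype.card_finset]
      push_cast
      exact le_refl _
    rw [abs_mul, abs_of_pos (by norm_num : (0 : ℝ) < 2)] at e2
    linarith
  have h6 := mul_le_mul_of_nonneg_left h5 (by positivity : (0 : ℝ) ≤ (1 / 2) ^ Fintype.card I)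
  refine h6.trans ?_
  rw [← mul_assoc, ← mul_pow]
  norm_num

end Pool.Agent.Q164.KS2
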