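import Pool.Agent.Q173.KS.Stm

set_option autoImplicit false

/-!
Project KS of helper173, job ROUND.
-/

namespace Pool.Agent.Q164.KS2

open Pool.Agent.Q173.KS Finset

section
variable {I : Type} [Fintype I] [DecidableEq I]

omit [Fintype I] [DecidableEq I] in
theorem emL_apply (i : I) : emL I i = (false, i) := rfl

omit [Fintype I] [DecidableEq I] in
theorem emR_apply (i : I) : emR I i = (true, i) := rfl

theorem inter_Lf (S : Finset (Bool × I)) : S ∩ Lf I = (pL S).map (emL I) := by
  ext ⟨b, i⟩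
  cases b <;> simp [Lf, pL, emL_apply]

theorem sdiff_Lf (S : Finset (Bool × I)) : S \ Lf I = (pR S).map (emR I) := by
  ext ⟨b, i⟩
  cases b <;> simp [Lf, pR, emR_apply]

theorem inter_Rt (S : Finset (Bool × I)) : S ∩ Rt I = (pR S).map (emR I) := by
  ext ⟨b, i⟩
  cases b <;> simp [Rt, pR, emR_apply]

theorem sdiff_Rt (S : Finset (Bool × I)) : S \ Rt I = (pL S).map (emL I) := by
  ext ⟨b, i⟩
  cases b <;> simp [Rt, pL, emL_apply]

theorem card_eq (S : Finset (Bool × I)) : (pL S).card + (pR S).card = S.card := by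
  have h := Finset.card_inter_add_card_sdiff S (Lf I)
  rw [inter_Lf, sdiff_Lf, Finset.card_map, Finset.card_map] at h
  exact h

theorem pL_map (S : Finset (Bool × I)) (σ : Equiv.Perm I) :
    pL (S.map (σ.viaEmbedding (emR I)).toEmbedding) = pL S := by
  ext i
  have h : (σ.viaEmbedding (emR I)).symm (false, i) = (false, i) := by
    rw [Equiv.symm_apply_eq]
    symm
    apply Equiv.Perm.viaEmbedding_apply_of_notMem
    rintro ⟨j, hj⟩
    simp [emR_apply] at hj
  simp only [pL, mem_filter, mem_univ, true_and]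
  rw [Finset.mem_map_equiv, h]

theorem pR_map (S : Finset (Bool × I)) (σ : Equiv.Perm I) :
    pR (S.map (σ.viaEmbedding (emR I)).toEmbedding) = (pR S).map σ.toEmbedding := by
  ext i
  have h : (σ.viaEmbedding (emR I)).symm (true, i) = (true, σ.symm i) := by
    rw [Equiv.symm_apply_eq]
    have := Equiv.Perm.viaEmbedding_apply σ (emR I) (σ.symm i)
    rw [Equiv.apply_symm_apply] at this
    exact this.symm
  rw [Finset.mem_map_equiv]
  simp only [pR, mem_filter, mem_univ, true_and]
  rw [Finset.mem_map_equiv, h]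

end

theorem core (hHIT : S_HIT) (hDIAG : S_DIAG) (I : Type) [Fintype I] [DecidableEq I] (k : ℕ)
    (ℓ : List (Op I)) (hU : Uni (k / 2) ℓ) (Φ : Finset (Bool × I) → ℝ)
    (h1 : InvOn k (Lf I) Φ) (h2 : InvOn k (Rt I) Φ) (S S' : Finset (Bool × I)) (hk : S.card ≤ k)
    (hL : (pL S).card = (pL S').card) (hR : (pR S).card = (pR S').card) :
    ES (ℓ.map (Op.map (emR I))) (ES (pairsP (fun _ => 1 / 2)) Φ) S =
      ES (ℓ.map (Op.map (emR I))) (ES (pairsP (fun _ => 1 / 2)) Φ) S' := by
  classical
  set ψ := ES (pairsP (fun _ => 1 / 2)) Φ with hψ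
  have hd := hDIAG I k Φ h1 h2
  rw [← hψ] at hd
  have hk' : S'.card ≤ k := by
    rw [← card_eq S', ← hL, ← hR, card_eq S]; exact hk
  let P : ℕ → Finset (Bool × I) → Prop := fun c U => U.card ≤ k ∧ (pL U).card = (pL S).card ∧
    (pR U).card = (pR S).card ∧ (pL U ∩ pR U).card = c
  let g : ℕ → ℝ := fun c => if h : ∃ U, P c U then ψ h.choose else 0
  have hg : ∀ U : Finset (Bool × I), U.card ≤ k → (pL U).card = (pL S).card →
      (pR U).card = (pR S).card → ψ U = g (pL U ∩ pR U).card := by
    intro U hU hUL hUR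
    have hex : ∃ V, P (pL U ∩ pR U).card V := ⟨U, hU, hUL, hUR, rfl⟩
    have hs := hex.choose_spec
    simp only [g, dif_pos hex]
    exact hd U _ hU (hUL.trans hs.2.1.symm) (hUR.trans hs.2.2.1.symm) hs.2.2.2.symm
  have key : ∀ U : Finset (Bool × I), U.card ≤ k → (pL U).card = (pL S).card →
      (pR U).card = (pR S).card → ES (ℓ.map (Op.map (emR I))) ψ U =
        EP ℓ (fun σ => g ((pL U ∩ (pR U).map σ.toEmbedding).card)) := by
    intro U hU hUL hUR
    unfold ES
    rw [EP_map]
    congr 1
    funext σ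
    rw [hg _ (by rwa [Finset.card_map]) (by rw [pL_map]; exact hUL)
      (by rw [pR_map, Finset.card_map]; exact hUR), pL_map, pR_map]
  rw [key S hk rfl rfl, key S' hk' hL.symm hR.symm]
  refine hHIT I (k / 2) ℓ hU g _ _ _ _ hL hR ?_
  have := card_eq S
  omega

theorem round (hHIT : S_HIT) (hDIAG : S_DIAG) : S_ROUND := by
  intro I _ _ k ℓ hU Φ h1 h2
  constructor
  · intro S S' hk h3 h4
    apply core hHIT hDIAG I k ℓ hU Φ h1 h2 S S' hk
    · rw [inter_Lf, inter_Lf, Finset.card_map, Finset.card_map] at h4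
      exact h4
    · have := congrArg Finset.card h3
      rw [sdiff_Lf, sdiff_Lf, Finset.card_map, Finset.card_map] at this
      exact this
  · intro S S' hk h3 h4
    apply core hHIT hDIAG I k ℓ hU Φ h1 h2 S S' hk
    · have := congrArg Finset.card h3
      rw [sdiff_Rt, sdiff_Rt, Finset.card_map, Finset.card_map] at this
      exact this
    · rw [inter_Rt, inter_Rt, Finset.card_map, Finset.card_map] at h4
      exact h4

end Pool.Agent.Q164.KS2
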